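import Pool.Agent.L5helper85.NB.Three

set_option autoImplicit false

/-! # Four bodies near a binary collision (helper85) -/

namespace Pool.Agent.L5helper85.NB

open MeasureTheory Set Metric Pool.Agent.Y516.NW

/-- four distinct indices -/
structure D4 (a b c d : Fin 4) : Prop where
  ab : a ≠ b
  ac : a ≠ c
  ad : a ≠ d
  bc : b ≠ c
  bd : b ≠ d
  cd : c ≠ d

theorem exists_D4 (a b : Fin 4) (hab : a ≠ b) : ∃ c d : Fin 4, D4 a b c d := by
  have : ∀ a b : Fin 4, a ≠ b → ∃ c d : Fin 4, a ≠ b ∧ a ≠ c ∧ a ≠ d ∧ b ≠ c ∧ b ≠ d ∧ c ≠ d := by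
    decide
  obtain ⟨c, d, h1, h2, h3, h4, h5, h6⟩ := this a b hab
  exact ⟨c, d, h1, h2, h3, h4, h5, h6⟩

theorem mem4 {a b c d : Fin 4} (h : D4 a b c d) (i : Fin 4) : i = a ∨ i = b ∨ i = c ∨ i = d := by
  have : ∀ a b c d i : Fin 4, a ≠ b → a ≠ c → a ≠ d → b ≠ c → b ≠ d → c ≠ d →
    i = a ∨ i = b ∨ i = c ∨ i = d := by decide
  exact this a b c d i h.ab h.ac h.ad h.bc h.bd h.cd

theorem sum4 {V : Type*} [AddCommMonoid V] (f : Fin 4 → V) {a b c d : Fin 4} (h : D4 a b c d) :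
    ∑ i, f i = f a + f b + f c + f d := by
  have h0 : (Finset.univ : Finset (Fin 4)) = {a, b, c, d} := by
    ext i
    simp only [Finset.mem_univ, Finset.mem_insert, Finset.mem_singleton, true_iff]
    exact mem4 h i
  rw [h0, Finset.sum_insert (by simp [h.ab, h.ac, h.ad]), Finset.sum_insert (by simp [h.bc, h.bd]),
    Finset.sum_pair h.cd, add_assoc, add_assoc]

/-- coordinates `(q_a - q_b, (q_c, q_d))` -/
noncomputable def T4 (m : Fin 4 → ℝ) (a b c d : Fin 4) : (Fin 3 → E3) →ₗ[ℝ] E3 × (E3 × E3) :=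
  ((prj a - prj b).prod ((prj c).prod (prj d))).comp (cfL (n := 3) m)

theorem T4_apply (m : Fin 4 → ℝ) (a b c d : Fin 4) (x : Fin 3 → E3) :
    T4 m a b c d x = (cf (n := 3) m x a - cf (n := 3) m x b,
      (cf (n := 3) m x c, cf (n := 3) m x d)) := rfl

theorem T4_inj (m : Fin 4 → ℝ) (hm : ∀ i, 0 < m i) {a b c d : Fin 4} (h : D4 a b c d) :
    Function.Injective (T4 m a b c d) := by
  rw [← LinearMap.ker_eq_bot, LinearMap.ker_eq_bot']
  intro x hx
  rw [T4_apply, Prod.mk_eq_zero, Prod.mk_eq_zero] at hx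
  obtain ⟨h1, h2, h2'⟩ := hx
  have h3 := cf_cen (n := 3) m hm x
  rw [sum4 _ h, h2, h2', smul_zero, smul_zero, add_zero, add_zero, sub_eq_zero.1 h1, ← add_smul,
    smul_eq_zero] at h3
  have h4 : cf (n := 3) m x b = 0 := by
    rcases h3 with h3 | h3
    · have := hm a; have := hm b; linarith
    · exact h3
  refine cf_inj (n := 3) m x ?_
  funext i
  rcases mem4 h i with hi | hi | hi | hi <;> rw [hi]
  · rw [sub_eq_zero.1 h1, h4]; rfl
  · rw [h4]; rfl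
  · rw [h2]; rfl
  · rw [h2']; rfl

theorem T4_int (m : Fin 4 → ℝ) (hm : ∀ i, 0 < m i) {a b c d : Fin 4} (h : D4 a b c d) :
    ∃ κ : ENNReal, κ ≠ 0 ∧ κ ≠ ⊤ ∧ ∀ (s u : ℝ) (B : Set (E3 × E3)), MeasurableSet B →
    ∫⁻ x, pw s u (T4 m a b c d x).1 * B.indicator 1 (T4 m a b c d x).2 =
      κ * ((∫⁻ y, pw s u y) * volume B) := by
  have h1 : (volume : Measure (E3 × E3)).IsAddHaarMeasure :=
    inferInstanceAs ((volume : Measure E3).prod (volume : Measure E3)).IsAddHaarMeasure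
  have h2 : (volume : Measure (E3 × (E3 × E3))).IsAddHaarMeasure :=
    @Measure.prod.instIsAddHaarMeasure E3 _ _ _ (E3 × E3) _ _ _ volume volume _ h1 _ _ _ _
  obtain ⟨k, hk0, hkt, hk⟩ := transfer (T4 m a b c d) (T4_inj m hm h)
    (by rw [Module.finrank_prod, Module.finrank_prod, Module.finrank_pi_fintype]; simp)
  refine ⟨k, hk0, hkt, ?_⟩
  intro s u B hB
  have h3 := hk (fun z => pw s u z.1 * B.indicator 1 z.2)
  rw [h3]
  have h4 : ∫⁻ z : E3 × (E3 × E3), pw s u z.1 * B.indicator 1 z.2 =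
      (∫⁻ y, pw s u y) * ∫⁻ y : E3 × E3, B.indicator 1 y := by
    rw [Measure.volume_eq_prod]
    exact lintegral_prod_mul (pw_meas s u).aemeasurable
      (measurable_one.indicator hB).aemeasurable
  rw [h4, lintegral_indicator_one hB]

/-- the neighbourhood of a configuration -/
def Nb (m : Fin 4 → ℝ) (E : ℝ) (q0 : Cfg 4) (ε : ℝ) : Set (Cfg 4 × Cfg 4) :=
  {z | z ∈ Surf m E ∧ ∀ i, ‖z.1 i - q0 i‖ < ε}

theorem four_inf (m : Fin 4 → ℝ) (hm : ∀ i, 0 < m i) (E : ℝ) (q0 : Cfg 4)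
    (hq0 : ∑ i, m i • q0 i = 0) (a b : Fin 4) (hab : a ≠ b) (heq : q0 a = q0 b) (ε : ℝ)
    (hε : 0 < ε) : lv (n := 3) m E (7 / 2) (Nb m E q0 ε) = ⊤ := by
  obtain ⟨c, d, h⟩ := exists_D4 a b hab
  obtain ⟨κ, hκ0, hκt, hint⟩ := T4_int m hm h
  have hV : 0 < (V0 (n := 3) m).toReal :=
    ENNReal.toReal_pos (V0_pos (n := 3) m hm).ne' (V0_lt (n := 3) m hm).ne
  have hVe : ENNReal.ofReal (V0 (n := 3) m).toReal = V0 (n := 3) m :=
    ENNReal.ofReal_toReal (V0_lt (n := 3) m hm).ne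
  obtain ⟨x0, hx0⟩ : ∃ x0 : Fin 3 → E3, x0 = fun i => q0 (Fin.castSucc i) := ⟨_, rfl⟩
  have hcf : cf (n := 3) m x0 = q0 := by rw [hx0]; exact cf_of (n := 3) m hm q0 hq0
  -- a small ball in the new coordinates
  obtain ⟨η, hη, hball⟩ : ∃ η : ℝ, 0 < η ∧ ∀ x : Fin 3 → E3,
      ‖T4 m a b c d x - T4 m a b c d x0‖ < η → ∀ i, ‖cf (n := 3) m x i - q0 i‖ < ε := by
    have hd : Module.finrank ℝ (Fin 3 → E3) = Module.finrank ℝ (E3 × (E3 × E3)) := by
      rw [Module.finrank_prod, Module.finrank_prod, Module.finrank_pi_fintype]; simp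
    let e : (Fin 3 → E3) ≃ₗ[ℝ] E3 × (E3 × E3) :=
      LinearEquiv.ofInjectiveOfFinrankEq (T4 m a b c d) (T4_inj m hm h) hd
    let eL : (Fin 3 → E3) ≃L[ℝ] E3 × (E3 × E3) := e.toContinuousLinearEquiv
    have he : ∀ x, eL x = T4 m a b c d x := fun x => rfl
    let G : E3 × (E3 × E3) → Cfg 4 := fun z => cfL (n := 3) m (eL.symm z)
    have hG : Continuous G :=
      ((cfL (n := 3) m).continuous_of_finiteDimensional).comp eL.symm.continuous
    have hGx : ∀ x, G (T4 m a b c d x) = cf (n := 3) m x := by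
      intro x
      show cfL (n := 3) m (eL.symm (T4 m a b c d x)) = cf (n := 3) m x
      rw [← he, eL.symm_apply_apply]; rfl
    obtain ⟨η, hη, h1⟩ := Metric.continuous_iff.1 hG (T4 m a b c d x0) ε hε
    refine ⟨η, hη, fun x hx i => ?_⟩
    have h2 := h1 (T4 m a b c d x) (by rwa [dist_eq_norm])
    rw [hGx, hGx, hcf, dist_eq_norm] at h2
    exact lt_of_le_of_lt (norm_le_pi_norm (cf (n := 3) m x - q0) i) h2
  obtain ⟨w, hw⟩ : ∃ w, w = m a * m b / 2 := ⟨_, rfl⟩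
  have hw0 : 0 < w := by
    rw [hw]; have := hm a; have := hm b; positivity
  obtain ⟨u, hu⟩ : ∃ u, u = min (η / 2) (w / (|E| + 1)) := ⟨_, rfl⟩
  have hu0 : 0 < u := by
    rw [hu]; exact lt_min (by positivity) (by positivity)
  have huη : u ≤ η / 2 := hu ▸ min_le_left _ _
  have huw : u ≤ w / (|E| + 1) := hu ▸ min_le_right _ _
  have hpt : ∀ᵐ x : Fin 3 → E3, ENNReal.ofReal (w ^ (7 / 2 : ℝ) * (V0 (n := 3) m).toReal) *
      (pw (7 / 2) u (T4 m a b c d x).1 *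
        (ball (T4 m a b c d x0).2 η).indicator 1 (T4 m a b c d x).2) ≤
      dens (n := 3) m E (7 / 2) (Nb m E q0 ε) x := by
    filter_upwards [ae_free (n := 3) m hm] with x hx
    by_cases hru : ‖(T4 m a b c d x).1‖ ≤ u
    swap
    · have : pw (7 / 2) u (T4 m a b c d x).1 = 0 := by
        unfold pw; rw [indicator_of_notMem (by simpa using hru)]
      rw [this, zero_mul, mul_zero]; exact zero_le
    by_cases hB : (T4 m a b c d x).2 ∈ ball (T4 m a b c d x0).2 η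
    swap
    · rw [indicator_of_notMem hB, mul_zero, mul_zero]; exact zero_le
    rw [indicator_of_mem hB]
    have hT0 : (T4 m a b c d x0).1 = 0 := by
      rw [T4_apply, hcf, heq, sub_self]
    have hnear : ‖T4 m a b c d x - T4 m a b c d x0‖ < η := by
      rw [Prod.norm_def, max_lt_iff]
      refine ⟨?_, ?_⟩
      · rw [Prod.fst_sub, hT0, sub_zero]; linarith
      · rw [Prod.snd_sub, ← dist_eq_norm]; exact hB
    have hnb := hball x hnear
    rw [T4_apply] at hru ⊢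
    dsimp only at hru ⊢
    obtain ⟨q, hq⟩ : ∃ q, q = cf (n := 3) m x := ⟨_, rfl⟩
    have hxq := hx
    rw [← hq] at hxq hnb hru ⊢
    have hr : 0 < ‖q a - q b‖ := norm_pos_iff.2 (sub_ne_zero.2 (hxq a b hab))
    have hpot := le_pot m hm q a b hab
    have hKlow : w / ‖q a - q b‖ ≤ pot m q + E := by
      have h1 : |E| ≤ w / ‖q a - q b‖ := by
        rw [le_div_iff₀ hr]
        have h2 : ‖q a - q b‖ ≤ w / (|E| + 1) := hru.trans huw
        rw [le_div_iff₀ (by positivity)] at h2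
        nlinarith
      have h2 : m a * m b / ‖q a - q b‖ = w / ‖q a - q b‖ + w / ‖q a - q b‖ := by
        rw [hw]; ring
      have h3 := neg_abs_le E
      linarith
    have hK : 0 < pot m q + E := lt_of_lt_of_le (by positivity) hKlow
    rw [dens_full (n := 3) (by norm_num) m hm E (7 / 2) (Nb m E q0 ε) x hx
      (by rw [← hq]; exact hK) (fun p hp => ⟨hp, by rw [← hq]; exact hnb⟩), ← hq,
      pw_eq (norm_pos_iff.1 hr) hru, Pi.one_apply, mul_one, ENNReal.ofReal_mul (by positivity),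
      hVe, mul_right_comm, ← ENNReal.ofReal_mul (by positivity)]
    gcongr
    rw [Real.rpow_neg hr.le]
    calc w ^ (7 / 2 : ℝ) * (‖q a - q b‖ ^ (7 / 2 : ℝ))⁻¹ = (w / ‖q a - q b‖) ^ (7 / 2 : ℝ) := by
          rw [Real.div_rpow hw0.le hr.le]; rfl
      _ ≤ _ := by gcongr
  have hlow := lintegral_mono_ae hpt
  rw [lintegral_const_mul' _ _ ENNReal.ofReal_ne_top,
    hint (7 / 2) u _ measurableSet_ball, lint_pw_top (by norm_num) hu0] at hlow
  have hBpos : volume (ball (T4 m a b c d x0).2 η) ≠ 0 := by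
    rw [Measure.volume_eq_prod]
    exact (measure_ball_pos _ _ hη).ne'
  rw [ENNReal.top_mul hBpos, ENNReal.mul_top hκ0, ENNReal.mul_top
    (by rw [ne_eq, ENNReal.ofReal_eq_zero, not_le]; positivity)] at hlow
  exact top_le_iff.1 hlow

theorem four_fin (m : Fin 4 → ℝ) (hm : ∀ i, 0 < m i) (E : ℝ) (q0 : Cfg 4) (a b : Fin 4)
    (hab : a ≠ b) (heq : q0 a = q0 b) (hne : ∀ i j, P2 a b i j → q0 i ≠ q0 j) :
    ∃ ε0 : ℝ, 0 < ε0 ∧ ∀ (ψ : Cfg 4 × Cfg 4 → ℝ) (φ : ℝ → Cfg 4 × Cfg 4 → Cfg 4 × Cfg 4),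
      IsFl m E ψ φ →
      lv (n := 3) m E (7 / 2) {z | z ∈ Nb m E q0 ε0 ∧ NonW (Surf m E) φ z} < ⊤ := by
  obtain ⟨c, d, h⟩ := exists_D4 a b hab
  obtain ⟨κ, hκ0, hκt, hint⟩ := T4_int m hm h
  have hVe : ENNReal.ofReal (V0 (n := 3) m).toReal = V0 (n := 3) m :=
    ENNReal.ofReal_toReal (V0_lt (n := 3) m hm).ne
  -- distance of the other pairs
  obtain ⟨δ, hδ, hδle⟩ : ∃ δ : ℝ, 0 < δ ∧ ∀ i j, P2 a b i j → 2 * δ ≤ ‖q0 i - q0 j‖ := by
    have hex : ∃ p ∈ (Finset.univ.filter fun p : Fin 4 × Fin 4 => P2 a b p.1 p.2),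
        ∀ p' ∈ (Finset.univ.filter fun p : Fin 4 × Fin 4 => P2 a b p.1 p.2),
          ‖q0 p.1 - q0 p.2‖ ≤ ‖q0 p'.1 - q0 p'.2‖ := by
      refine Finset.exists_min_image _ (fun p : Fin 4 × Fin 4 => ‖q0 p.1 - q0 p.2‖) ⟨(a, c), ?_⟩
      rw [Finset.mem_filter]
      exact ⟨Finset.mem_univ _, h.ac, fun h1 => h.bc h1.2.symm, fun h1 => h.ab h1.1⟩
    obtain ⟨p, hp, hmin⟩ := hex
    rw [Finset.mem_filter] at hp
    have h0 : 0 < ‖q0 p.1 - q0 p.2‖ := norm_pos_iff.2 (sub_ne_zero.2 (hne _ _ hp.2))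
    refine ⟨‖q0 p.1 - q0 p.2‖ / 2, by positivity, fun i j hij => ?_⟩
    have := hmin (i, j) (by rw [Finset.mem_filter]; exact ⟨Finset.mem_univ _, hij⟩)
    dsimp only at this
    linarith
  obtain ⟨ε, hε⟩ : ∃ ε, ε = δ / 2 := ⟨_, rfl⟩
  have hε0 : 0 < ε := by rw [hε]; positivity
  refine ⟨ε, hε0, ?_⟩
  intro ψ φ hφ
  obtain ⟨M, hMd⟩ : ∃ M, M = ∑ i, m i := ⟨_, rfl⟩
  have hM : 0 < M := by rw [hMd]; exact Finset.sum_pos (fun i _ => hm i) ⟨0, Finset.mem_univ _⟩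
  rcases le_or_gt E 0 with hE | hE
  swap
  · have hP := Pool.Agent.Y438.NW.pos 4 m hm E hE ψ φ hφ
    have : lv (n := 3) m E (7 / 2) {z | z ∈ Nb m E q0 ε ∧ NonW (Surf m E) φ z} = 0 := by
      unfold lv
      rw [lintegral_congr (fun x => dens_zero (n := 3) m E (7 / 2) _ x
        (Or.inr fun p hp => hP _ hp.1.1 hp.2)), lintegral_zero]
    rw [this]
    exact ENNReal.zero_lt_top
  obtain ⟨C, hC, hd⟩ := dens_nonw (n := 3) (by norm_num) m hm
  obtain ⟨A, hA⟩ : ∃ A, A = m a * m b + M ^ 2 / δ * (2 * ε) := ⟨_, rfl⟩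
  have hma := hm a
  have hmb := hm b
  have hA0 : 0 < A := by rw [hA]; positivity
  have hpt : ∀ x : Fin 3 → E3,
      dens (n := 3) m E (7 / 2) {z | z ∈ Nb m E q0 ε ∧ NonW (Surf m E) φ z} x ≤
      ENNReal.ofReal (C * A ^ 2 * δ ^ (-(3 / 2) : ℝ) * (V0 (n := 3) m).toReal) *
      (pw 2 (2 * ε) (T4 m a b c d x).1 *
        (ball ((q0 c, q0 d) : E3 × E3) ε).indicator 1 (T4 m a b c d x).2) := by
    intro x
    by_cases hz : ¬ (0 < pot m (cf (n := 3) m x) + E) ∨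
      ∀ p, (cf (n := 3) m x, p) ∉ {z | z ∈ Nb m E q0 ε ∧ NonW (Surf m E) φ z}
    · rw [dens_zero (n := 3) m E (7 / 2) _ x hz]; exact zero_le
    rw [not_or, not_not, not_forall] at hz
    obtain ⟨hK, p, hp⟩ := hz
    rw [not_not] at hp
    obtain ⟨⟨⟨hx, -⟩, hR⟩, -⟩ := hp
    dsimp only at hx hR
    have hsep : ∀ i j, P2 a b i j → δ ≤ ‖cf (n := 3) m x i - cf (n := 3) m x j‖ := by
      intro i j hij
      have h1 := hδle i j hij
      have h2 : q0 i - q0 j = (cf (n := 3) m x i - cf (n := 3) m x j)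
          + -(cf (n := 3) m x i - q0 i) + (cf (n := 3) m x j - q0 j) := by abel
      have h3 : ‖q0 i - q0 j‖ ≤ ‖cf (n := 3) m x i - cf (n := 3) m x j‖
          + ‖cf (n := 3) m x i - q0 i‖ + ‖cf (n := 3) m x j - q0 j‖ := by
        rw [h2]
        refine (norm_add_le _ _).trans ?_
        gcongr
        refine (norm_add_le _ _).trans ?_
        rw [norm_neg]
      have h4 := hR i
      have h5 := hR j
      rw [hε] at h4 h5
      linarith
    have h1 := hd E (7 / 2) hE ψ φ hφ x hx a b hab δ hδ hsep hK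
      {z | z ∈ Nb m E q0 ε ∧ NonW (Surf m E) φ z} (fun z hz => hz.2)
    refine h1.trans ?_
    have hr : 0 < ‖cf (n := 3) m x a - cf (n := 3) m x b‖ :=
      norm_pos_iff.2 (sub_ne_zero.2 (hx a b hab))
    have hrle : ‖cf (n := 3) m x a - cf (n := 3) m x b‖ ≤ 2 * ε := by
      have h2 : cf (n := 3) m x a - cf (n := 3) m x b =
          (cf (n := 3) m x a - q0 a) + -(cf (n := 3) m x b - q0 b) := by rw [heq]; abel
      rw [h2]
      refine (norm_add_le _ _).trans ?_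
      rw [norm_neg]
      have := (hR a).le
      have := (hR b).le
      linarith
    have hmem : (T4 m a b c d x).2 ∈ ball ((q0 c, q0 d) : E3 × E3) ε := by
      rw [T4_apply, mem_ball, dist_eq_norm, Prod.norm_def, max_lt_iff]
      exact ⟨hR c, hR d⟩
    rw [indicator_of_mem hmem, T4_apply, pw_eq (norm_pos_iff.1 hr) hrle, Pi.one_apply, mul_one,
      ← hVe, ← ENNReal.ofReal_mul (by positivity), ← ENNReal.ofReal_mul (by positivity), hVe]
    refine ENNReal.ofReal_le_ofReal ?_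
    have hpot := Pool.Agent.Y421.NW.pot (q := cf (n := 3) m x) hm hab (d := 4 * δ) (by positivity)
      (fun i j hP => by have := hsep i j hP; linarith)
    rw [← hMd] at hpot
    obtain ⟨r, hrd⟩ : ∃ r, r = ‖cf (n := 3) m x a - cf (n := 3) m x b‖ := ⟨_, rfl⟩
    obtain ⟨K, hKd⟩ : ∃ K, K = pot m (cf (n := 3) m x) + E := ⟨_, rfl⟩
    rw [← hrd] at hr hrle hpot ⊢
    rw [← hKd] at hK ⊢
    have hKle : K ≤ A / r := by
      have h2 : K ≤ m a * m b / r + 2 * M ^ 2 / (4 * δ) := by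
        have : pot m (cf (n := 3) m x) ≤ m a * m b / r + 2 * M ^ 2 / (4 * δ) := hpot
        linarith
      have h3 : 2 * M ^ 2 / (4 * δ) ≤ (M ^ 2 / δ * (2 * ε)) / r := by
        rw [le_div_iff₀ hr]
        have h4 : 2 * M ^ 2 / (4 * δ) = M ^ 2 / δ / 2 := by field_simp; norm_num
        rw [h4]
        have h5 : 0 ≤ M ^ 2 / δ := by positivity
        nlinarith
      rw [hA, add_div]
      linarith
    have e1 : K ^ (7 / 2 - 3 / 2 : ℝ) ≤ A ^ 2 * r ^ (-2 : ℝ) := by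
      have e0 : (7 / 2 - 3 / 2 : ℝ) = 2 := by norm_num
      rw [e0, Real.rpow_two, Real.rpow_neg hr.le, Real.rpow_two]
      calc K ^ 2 ≤ (A / r) ^ 2 := by gcongr
        _ = _ := by rw [div_pow]; rfl
    calc C * K ^ (7 / 2 - 3 / 2 : ℝ) * δ ^ (-(3 / 2) : ℝ) * (V0 (n := 3) m).toReal
        ≤ C * (A ^ 2 * r ^ (-2 : ℝ)) * δ ^ (-(3 / 2) : ℝ) * (V0 (n := 3) m).toReal := by gcongr
      _ = _ := by ring
  refine lt_of_le_of_lt (lintegral_mono hpt) ?_
  rw [lintegral_const_mul' _ _ ENNReal.ofReal_ne_top, hint 2 (2 * ε) _ measurableSet_ball,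
    lint_pw (by norm_num) (by positivity)]
  refine ENNReal.mul_lt_top ENNReal.ofReal_lt_top (ENNReal.mul_lt_top hκt.lt_top
    (ENNReal.mul_lt_top ENNReal.ofReal_lt_top ?_))
  rw [Measure.volume_eq_prod]
  exact measure_ball_lt_top

end Pool.Agent.L5helper85.NB
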