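import Pool.Agent.L5helper85.NB.Rad
import Pool.Agent.N775.NW.Main
import Pool.Agent.Y438.NW.Pos

set_option autoImplicit false

/-! # Liouville measure of the nonwandering points: general tools (helper85) -/

namespace Pool.Agent.L5helper85.NB

open MeasureTheory Set Metric Pool.Agent.Y516.NW

variable {n : ℕ}

/-- the configuration with centre of mass `0` whose first `n` bodies are at `x` -/
noncomputable def cf (m : Fin (n + 1) → ℝ) (x : Fin n → E3) : Cfg (n + 1) :=
  Fin.snoc x (-((m (Fin.last n))⁻¹ • ∑ i, m (Fin.castSucc i) • x i))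

theorem cf_cen (m : Fin (n + 1) → ℝ) (hm : ∀ i, 0 < m i) (x : Fin n → E3) :
    ∑ i, m i • cf m x i = 0 := by
  rw [Fin.sum_univ_castSucc]
  simp only [cf, Fin.snoc_castSucc, Fin.snoc_last]
  rw [smul_neg, smul_smul, mul_inv_cancel₀ (hm _).ne', one_smul, add_neg_cancel]

/-- the same as a linear map -/
noncomputable def cfL (m : Fin (n + 1) → ℝ) : (Fin n → E3) →ₗ[ℝ] Cfg (n + 1) where
  toFun := cf m
  map_add' x y := by
    funext i
    refine Fin.lastCases ?_ (fun i => ?_) i
    · simp only [cf, Fin.snoc_last, Pi.add_apply, smul_add, Finset.sum_add_distrib]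
      abel
    · simp only [cf, Fin.snoc_castSucc, Pi.add_apply]
  map_smul' c x := by
    funext i
    refine Fin.lastCases ?_ (fun i => ?_) i
    · simp only [cf, Fin.snoc_last, Pi.smul_apply, RingHom.id_apply]
      have h1 : ∑ i : Fin n, m i.castSucc • c • x i = c • ∑ i : Fin n, m i.castSucc • x i := by
        rw [Finset.smul_sum]
        exact Finset.sum_congr rfl fun i _ => smul_comm (m i.castSucc) c (x i)
      rw [h1, smul_neg, smul_comm c]
    · simp only [cf, Fin.snoc_castSucc, Pi.smul_apply, RingHom.id_apply]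

@[simp] theorem cfL_apply (m : Fin (n + 1) → ℝ) (x : Fin n → E3) : cfL m x = cf m x := rfl

theorem cf_inj (m : Fin (n + 1) → ℝ) (x : Fin n → E3) (h : cf m x = 0) : x = 0 := by
  funext i
  have := congrFun h (Fin.castSucc i)
  simpa [cf, Fin.snoc_castSucc] using this

/-- the density of the Liouville measure over `x` -/
noncomputable def dens (m : Fin (n + 1) → ℝ) (E e : ℝ) (A : Set (Cfg (n + 1) × Cfg (n + 1)))
    (x : Fin n → E3) : ENNReal :=
  if 0 < pot m (cf m x) + E then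
    ENNReal.ofReal ((pot m (cf m x) + E) ^ e) *
      volume {P : Fin n → E3 | kin m (mom P) ≤ 1 ∧
        (cf m x, Real.sqrt ((pot m (cf m x) + E) / kin m (mom P)) • mom P) ∈ A}
  else 0

/-- the Liouville measure up to a factor depending on the masses -/
noncomputable def lv (m : Fin (n + 1) → ℝ) (E e : ℝ) (A : Set (Cfg (n + 1) × Cfg (n + 1))) :
    ENNReal := ∫⁻ x, dens m E e A x

/-- volume of the kinetic ball -/
noncomputable def V0 (m : Fin (n + 1) → ℝ) : ENNReal :=
  volume {P : Fin n → E3 | kin m (mom P) ≤ 1}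

theorem V0_pos (m : Fin (n + 1) → ℝ) (hm : ∀ i, 0 < m i) : 0 < V0 m := by
  obtain ⟨R, hR, hRb, hvol⟩ := Pool.Agent.Y317.NW.ball n m hm
  exact hvol

theorem V0_lt (m : Fin (n + 1) → ℝ) (hm : ∀ i, 0 < m i) : V0 m < ⊤ := by
  obtain ⟨R, hR, hRb, hvol⟩ := Pool.Agent.Y317.NW.ball n m hm
  refine lt_of_le_of_lt (measure_mono (t := closedBall (0 : Fin n → E3) R) ?_)
    measure_closedBall_lt_top
  intro P hP
  rw [mem_closedBall, dist_zero_right]
  exact hRb P hP

/-- the density is at most the trivial one -/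
theorem dens_le (m : Fin (n + 1) → ℝ) (E e : ℝ) (A : Set (Cfg (n + 1) × Cfg (n + 1)))
    (x : Fin n → E3) : dens m E e A x ≤ ENNReal.ofReal ((pot m (cf m x) + E) ^ e) * V0 m := by
  unfold dens V0
  split_ifs
  · gcongr
    exact fun h => h.1
  · exact zero_le

theorem dens_mono (m : Fin (n + 1) → ℝ) (E e : ℝ) {A B : Set (Cfg (n + 1) × Cfg (n + 1))}
    (hAB : A ⊆ B) (x : Fin n → E3) : dens m E e A x ≤ dens m E e B x := by
  unfold dens
  split_ifs with h
  · gcongr
  · exact le_rfl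

/-- the density vanishes unless the configuration is free of collisions and `K > 0` -/
theorem dens_zero (m : Fin (n + 1) → ℝ) (E e : ℝ) (A : Set (Cfg (n + 1) × Cfg (n + 1)))
    (x : Fin n → E3) (h : ¬ (0 < pot m (cf m x) + E) ∨ ∀ p, (cf m x, p) ∉ A) :
    dens m E e A x = 0 := by
  unfold dens
  split_ifs with hK
  · rcases h with h | h
    · exact absurd hK h
    · have : {P : Fin n → E3 | kin m (mom P) ≤ 1 ∧
        (cf m x, Real.sqrt ((pot m (cf m x) + E) / kin m (mom P)) • mom P) ∈ A} = ∅ := by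
        ext P
        exact ⟨fun hP => absurd hP.2 (h _), fun hP => hP.elim⟩
      rw [this, measure_empty, mul_zero]
  · rfl

theorem kin_nonneg (m : Fin (n + 1) → ℝ) (hm : ∀ i, 0 < m i) (p : Cfg (n + 1)) :
    0 ≤ kin m p := Finset.sum_nonneg fun i _ => by
  have := hm i; positivity

theorem kin_pos (m : Fin (n + 1) → ℝ) (hm : ∀ i, 0 < m i) (P : Fin n → E3) (hP : P ≠ 0) :
    0 < kin m (mom P) := by
  refine lt_of_le_of_ne (kin_nonneg m hm _) fun h0 => hP ?_
  have hz : ∀ i, mom P i = 0 := by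
    intro i
    have h1 := (Finset.sum_eq_zero_iff_of_nonneg (fun i _ => by
      have := hm i; positivity)).mp h0.symm i (Finset.mem_univ i)
    have h2 : ‖mom P i‖ ^ 2 = 0 := by
      rcases div_eq_zero_iff.mp h1 with h | h
      · exact h
      · have := hm i; linarith
    exact norm_eq_zero.mp (pow_eq_zero_iff (by norm_num) |>.mp h2)
  funext k
  have := hz k.castSucc
  simpa [mom, Fin.snoc_castSucc] using this

theorem in_surf (m : Fin (n + 1) → ℝ) (hm : ∀ i, 0 < m i) (E : ℝ) (x : Fin n → E3)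
    (hx : ∀ i j, i ≠ j → cf m x i ≠ cf m x j) (hK : 0 < pot m (cf m x) + E) (P : Fin n → E3)
    (hP : P ≠ 0) :
    (cf m x, Real.sqrt ((pot m (cf m x) + E) / kin m (mom P)) • mom P) ∈ Surf m E := by
  have hkin := kin_pos m hm P hP
  refine ⟨hx, cf_cen m hm x, ?_, ?_⟩
  · have : ∑ i, (Real.sqrt ((pot m (cf m x) + E) / kin m (mom P)) • mom P) i =
        Real.sqrt ((pot m (cf m x) + E) / kin m (mom P)) • ∑ i, mom P i := by
      rw [Finset.smul_sum]; rfl
    rw [this, mom_sum, smul_zero]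
  · obtain ⟨s, hs⟩ : ∃ s, s = Real.sqrt ((pot m (cf m x) + E) / kin m (mom P)) := ⟨_, rfl⟩
    have hs2 : s ^ 2 = (pot m (cf m x) + E) / kin m (mom P) := by
      rw [hs]; exact Real.sq_sqrt (div_nonneg hK.le hkin.le)
    have h1 : ∑ i, ‖(s • mom P) i‖ ^ 2 /
        (2 * m i) = (pot m (cf m x) + E) / kin m (mom P) * kin m (mom P) := by
      rw [← hs2]
      unfold kin
      rw [Finset.mul_sum]
      refine Finset.sum_congr rfl fun i _ => ?_
      rw [Pi.smul_apply, norm_smul, Real.norm_eq_abs, mul_pow, sq_abs]; ring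
    rw [hs] at h1
    show ∑ i, ‖(Real.sqrt ((pot m (cf m x) + E) / kin m (mom P)) • mom P) i‖ ^ 2 / (2 * m i)
      - pot m (cf m x) = E
    rw [h1, div_mul_cancel₀ _ hkin.ne']; ring

/-- the density of a set containing all points of the surface over `x` -/
theorem dens_full (hn : 1 ≤ n) (m : Fin (n + 1) → ℝ) (hm : ∀ i, 0 < m i) (E e : ℝ)
    (A : Set (Cfg (n + 1) × Cfg (n + 1))) (x : Fin n → E3)
    (hx : ∀ i j, i ≠ j → cf m x i ≠ cf m x j) (hK : 0 < pot m (cf m x) + E)
    (hA : ∀ p, (cf m x, p) ∈ Surf m E → (cf m x, p) ∈ A) :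
    dens m E e A x = ENNReal.ofReal ((pot m (cf m x) + E) ^ e) * V0 m := by
  unfold dens V0
  rw [if_pos hK]
  congr 1
  refine le_antisymm (measure_mono fun P hP => hP.1) ?_
  have h2 : Nonempty (Fin n) := ⟨⟨0, by omega⟩⟩
  have h3 : (⊥ : Submodule ℝ (Fin n → E3)) ≠ ⊤ := bot_ne_top
  have h0 : volume ({0} : Set (Fin n → E3)) = 0 := Measure.addHaar_submodule volume _ h3
  calc volume {P : Fin n → E3 | kin m (mom P) ≤ 1}
      ≤ volume ({P : Fin n → E3 | kin m (mom P) ≤ 1 ∧
        (cf m x, Real.sqrt ((pot m (cf m x) + E) / kin m (mom P)) • mom P) ∈ A} ∪ {0}) := by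
        refine measure_mono fun P hP => ?_
        by_cases hP0 : P = 0
        · exact Or.inr hP0
        · exact Or.inl ⟨hP, hA _ (in_surf m hm E x hx hK P hP0)⟩
    _ ≤ _ := by
        refine (measure_union_le _ _).trans ?_
        rw [h0, add_zero]

/-- the density of the nonwandering points over a configuration with a close pair -/
theorem dens_nonw (hn : 2 ≤ n) (m : Fin (n + 1) → ℝ) (hm : ∀ i, 0 < m i) :
    ∃ C : ℝ, 0 < C ∧ ∀ (E e : ℝ), E ≤ 0 →
      ∀ (ψ : Cfg (n + 1) × Cfg (n + 1) → ℝ)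
        (φ : ℝ → Cfg (n + 1) × Cfg (n + 1) → Cfg (n + 1) × Cfg (n + 1)), IsFl m E ψ φ →
      ∀ x : Fin n → E3, (∀ i j, i ≠ j → cf m x i ≠ cf m x j) →
      ∀ a b : Fin (n + 1), a ≠ b → ∀ δ : ℝ, 0 < δ → (∀ i j, P2 a b i j → δ ≤ ‖cf m x i - cf m x j‖) →
      0 < pot m (cf m x) + E →
      ∀ A ⊆ {z | NonW (Surf m E) φ z},
      dens m E e A x ≤ ENNReal.ofReal (C * (pot m (cf m x) + E) ^ (e - 3 / 2) * δ ^ (-(3 / 2) : ℝ)) *
        V0 m := by
  obtain ⟨C, hC, h⟩ := Pool.Agent.N775.NW.main_neg n hn m hm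
  refine ⟨C ^ (3 / 2 : ℝ), by positivity, ?_⟩
  intro E e hE ψ φ hφ x hx a b hab δ hδ hδx hK A hA
  have h1 := h E hE ψ φ hφ (cf m x) hx (cf_cen m hm x) a b hab δ hδ hδx hK
  unfold dens
  rw [if_pos hK]
  calc ENNReal.ofReal ((pot m (cf m x) + E) ^ e) * volume {P : Fin n → E3 | kin m (mom P) ≤ 1 ∧
        (cf m x, Real.sqrt ((pot m (cf m x) + E) / kin m (mom P)) • mom P) ∈ A}
      ≤ ENNReal.ofReal ((pot m (cf m x) + E) ^ e) *
        (ENNReal.ofReal (Real.sqrt (C / (δ * (pot m (cf m x) + E))) ^ 3) * V0 m) := by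
        gcongr
        refine (measure_mono fun P hP => ?_).trans h1
        exact ⟨hP.1, hA hP.2⟩
    _ = _ := by
        rw [← mul_assoc, ← ENNReal.ofReal_mul (by positivity)]
        congr 2
        obtain ⟨K, hKd⟩ : ∃ K, K = pot m (cf m x) + E := ⟨_, rfl⟩
        rw [← hKd] at hK ⊢
        have h2 : Real.sqrt (C / (δ * K)) ^ 3 = (C / (δ * K)) ^ (3 / 2 : ℝ) := by
          rw [Real.sqrt_eq_rpow, ← Real.rpow_natCast, ← Real.rpow_mul (by positivity)]
          norm_num
        rw [h2, Real.div_rpow hC.le (by positivity), Real.mul_rpow hδ.le hK.le, Real.rpow_sub hK,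
          Real.rpow_neg hδ.le]
        field_simp

end Pool.Agent.L5helper85.NB
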