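import Pool.Agent.Y516.NW.Fin

set_option autoImplicit false

/-! # Integrals of powers of the norm in space; products (helper85) -/

namespace Pool.Agent.L5helper85.NB

open MeasureTheory Set Metric Pool.Agent.Y516.NW

/-- the weight `‖y‖ ^ (-s)`, infinite at `0`, restricted to the ball of radius `a` -/
noncomputable def pw (s a : ℝ) (y : E3) : ENNReal :=
  (closedBall (0 : E3) a).indicator (fun y => (ENNReal.ofReal ‖y‖) ^ (-s)) y

theorem pw_meas (s a : ℝ) : Measurable (pw s a) := by
  unfold pw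
  exact ((ENNReal.measurable_ofReal.comp measurable_norm).pow_const _).indicator
    measurableSet_closedBall

theorem pw_eq {s a : ℝ} {y : E3} (hy : y ≠ 0) (ha : ‖y‖ ≤ a) :
    pw s a y = ENNReal.ofReal (‖y‖ ^ (-s)) := by
  unfold pw
  rw [indicator_of_mem (by simpa using ha), ENNReal.ofReal_rpow_of_pos (norm_pos_iff.2 hy)]

theorem pw_top {s a : ℝ} (hs : 0 < s) (ha : 0 ≤ a) : pw s a 0 = ⊤ := by
  unfold pw
  rw [indicator_of_mem (by simpa using ha), norm_zero, ENNReal.ofReal_zero,
    ENNReal.zero_rpow_of_neg (by linarith)]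

theorem finrank_E3 : Module.finrank ℝ E3 = 3 := by simp

/-- the constant -/
noncomputable def cs (s : ℝ) : ℝ := 3 * (volume.real (ball (0 : E3) 1)) / (3 - s)

theorem cs_pos {s : ℝ} (hs : s < 3) : 0 < cs s := by
  unfold cs
  have h1 : 0 < volume.real (ball (0 : E3) 1) :=
    ENNReal.toReal_pos (measure_ball_pos volume _ one_pos).ne' measure_ball_lt_top.ne
  have h2 : 0 < 3 - s := by linarith
  positivity

theorem lint_pw {s a : ℝ} (hs : s < 3) (ha : 0 < a) :
    ∫⁻ y : E3, pw s a y = ENNReal.ofReal (cs s * a ^ (3 - s)) := by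
  have hint1 : IntegrableOn (fun y : ℝ => y ^ (2 - s)) (Ioc 0 a) := by
    have := (intervalIntegral.intervalIntegrable_rpow' (a := 0) (b := a) (r := 2 - s) (by linarith))
    rwa [intervalIntegrable_iff_integrableOn_Ioc_of_le ha.le] at this
  set f : ℝ → ℝ := (Iic a).indicator (fun y => y ^ (-s)) with hf
  have hfy : ∀ y ∈ Ioi (0 : ℝ), y ^ (Module.finrank ℝ E3 - 1) • f y =
      (Ioc 0 a).indicator (fun y : ℝ => y ^ (2 - s)) y := by
    intro y hy
    have hy' : (0 : ℝ) < y := hy
    rw [finrank_E3, hf]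
    by_cases hya : y ≤ a
    · rw [indicator_of_mem (mem_Iic.2 hya), indicator_of_mem (mem_Ioc.2 ⟨hy', hya⟩), smul_eq_mul]
      have : (2 : ℝ) - s = ((2 : ℕ) : ℝ) + (-s) := by push_cast; ring
      rw [this, Real.rpow_add hy', Real.rpow_natCast]
    · rw [indicator_of_notMem (fun h => hya (mem_Iic.1 h)),
        indicator_of_notMem (fun h => hya (mem_Ioc.1 h).2), smul_zero]
  have hint : Integrable (fun x : E3 => f ‖x‖) := by
    rw [integrable_fun_norm_addHaar, integrableOn_congr_fun hfy measurableSet_Ioi]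
    have := (integrable_indicator_iff (f := fun y : ℝ => y ^ (2 - s)) (s := Ioc 0 a)
      (μ := volume) measurableSet_Ioc).2 hint1
    exact this.integrableOn
  have hval : ∫ x : E3, f ‖x‖ = cs s * a ^ (3 - s) := by
    rw [integral_fun_norm_addHaar, setIntegral_congr_fun measurableSet_Ioi hfy,
      setIntegral_indicator measurableSet_Ioc]
    have h1 : Ioi (0 : ℝ) ∩ Ioc 0 a = Ioc 0 a := by
      ext y; constructor
      · exact fun h => h.2
      · exact fun h => ⟨h.1, h⟩
    rw [h1, ← intervalIntegral.integral_of_le ha.le, integral_rpow (Or.inl (by linarith)),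
      finrank_E3]
    have h2 : 2 - s + 1 = 3 - s := by ring
    rw [h2, Real.zero_rpow (by linarith), sub_zero]
    unfold cs
    rw [nsmul_eq_mul, smul_eq_mul]
    push_cast
    ring
  have hfnn : ∀ x : E3, 0 ≤ f ‖x‖ := by
    intro x
    rw [hf]
    by_cases hya : ‖x‖ ≤ a
    · rw [indicator_of_mem (mem_Iic.2 hya)]
      exact Real.rpow_nonneg (norm_nonneg _) _
    · rw [indicator_of_notMem (fun h => hya (mem_Iic.1 h))]
  have hae : ∀ᵐ y : E3, pw s a y = ENNReal.ofReal (f ‖y‖) := by
    have h0 : ∀ᵐ y : E3, y ≠ 0 := by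
      rw [ae_iff]
      simp
    filter_upwards [h0] with y hy
    unfold pw
    by_cases hya : ‖y‖ ≤ a
    · rw [indicator_of_mem (by simpa using hya), hf, indicator_of_mem (mem_Iic.2 hya),
        ENNReal.ofReal_rpow_of_pos (norm_pos_iff.2 hy)]
    · rw [indicator_of_notMem (by simpa using hya), hf,
        indicator_of_notMem (fun h => hya (mem_Iic.1 h)), ENNReal.ofReal_zero]
  rw [lintegral_congr_ae hae, ← ofReal_integral_eq_lintegral_ofReal hint
    (Filter.Eventually.of_forall hfnn), hval]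

theorem lint_pw_top {s a : ℝ} (hs : 3 ≤ s) (ha : 0 < a) : ∫⁻ y : E3, pw s a y = ⊤ := by
  by_contra hne
  set f : ℝ → ℝ := fun y => y ^ (-s) with hf
  have h0 : ∀ᵐ y : E3, y ≠ 0 := by
    rw [ae_iff]
    simp
  have hint : IntegrableOn (fun x : E3 => f ‖x‖) (ball (0 : E3) a) := by
    refine ⟨(measurable_norm.pow_const _).aestronglyMeasurable, ?_⟩
    rw [hasFiniteIntegral_iff_ofReal (Filter.Eventually.of_forall fun x =>
      Real.rpow_nonneg (norm_nonneg _) _)]
    refine lt_of_le_of_lt ?_ (lt_top_iff_ne_top.2 hne)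
    rw [← lintegral_indicator measurableSet_ball]
    refine lintegral_mono_ae ?_
    filter_upwards [h0] with y hy
    by_cases hya : y ∈ ball (0 : E3) a
    · rw [indicator_of_mem hya, pw_eq hy (le_of_lt (by simpa using hya))]
    · rw [indicator_of_notMem hya]
      exact zero_le
  rw [integrableOn_fun_norm_addHaar, finrank_E3] at hint
  have h2 : IntegrableOn (fun y : ℝ => y ^ (2 - s)) (Ioo 0 a) := by
    refine (integrableOn_congr_fun (fun y hy => ?_) measurableSet_Ioo).1 hint
    have hy' : (0 : ℝ) < y := hy.1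
    have : (2 : ℝ) - s = ((2 : ℕ) : ℝ) + (-s) := by push_cast; ring
    rw [this, Real.rpow_add hy', Real.rpow_natCast, smul_eq_mul]
  rw [intervalIntegral.integrableOn_Ioo_rpow_iff ha] at h2
  linarith

/-- change of variables -/
theorem transfer {V W : Type} [NormedAddCommGroup V] [NormedSpace ℝ V] [FiniteDimensional ℝ V]
    [MeasureSpace V] [BorelSpace V] [(volume : Measure V).IsAddHaarMeasure]
    [NormedAddCommGroup W] [NormedSpace ℝ W] [FiniteDimensional ℝ W]
    [MeasureSpace W] [BorelSpace W] [(volume : Measure W).IsAddHaarMeasure]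
    (T : V →ₗ[ℝ] W) (hT : Function.Injective T) (hd : Module.finrank ℝ V = Module.finrank ℝ W) :
    ∃ c : ENNReal, c ≠ 0 ∧ c ≠ ⊤ ∧ ∀ f : W → ENNReal, ∫⁻ x, f (T x) = c * ∫⁻ z, f z := by
  let e : V ≃ₗ[ℝ] W := LinearEquiv.ofInjectiveOfFinrankEq T hT hd
  let eL : V ≃L[ℝ] W := e.toContinuousLinearEquiv
  have he : ∀ x, eL x = T x := fun x => rfl
  let μ : Measure W := Measure.map eL (volume : Measure V)
  have hμ : μ.IsAddHaarMeasure := eL.isAddHaarMeasure_map volume
  obtain ⟨κ, hκ0, hκ⟩ : ∃ κ : NNReal, κ ≠ 0 ∧ μ = κ • (volume : Measure W) :=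
    ⟨Measure.addHaarScalarFactor μ (volume : Measure W),
      (Measure.addHaarScalarFactor_pos_of_isAddHaarMeasure μ (volume : Measure W)).ne',
      Measure.isAddLeftInvariant_eq_smul μ (volume : Measure W)⟩
  refine ⟨(κ : ENNReal), by exact_mod_cast hκ0, ENNReal.coe_ne_top, ?_⟩
  intro f
  have h2 : ∫⁻ x, f (T x) = ∫⁻ z, f z ∂μ := by
    have := MeasureTheory.lintegral_map_equiv (μ := (volume : Measure V)) f
      eL.toHomeomorph.toMeasurableEquiv
    exact this.symm
  rw [h2, hκ]
  exact lintegral_smul_measure (κ : ENNReal) f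

end Pool.Agent.L5helper85.NB
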