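import Pool.Agent.L5helper85.NB.Pair

set_option autoImplicit false

/-! # Three bodies (helper85) -/

namespace Pool.Agent.L5helper85.NB

open MeasureTheory Set Metric Pool.Agent.Y516.NW

section general

variable {n : ℕ}

/-- position of a body as a linear map -/
noncomputable def prj {N : ℕ} (i : Fin N) : Cfg N →ₗ[ℝ] E3 :=
  LinearMap.proj (R := ℝ) (φ := fun _ : Fin N => E3) i

theorem prj_apply {N : ℕ} (i : Fin N) (q : Cfg N) : prj i q = q i := rfl

theorem cf_of (m : Fin (n + 1) → ℝ) (hm : ∀ i, 0 < m i) (q : Cfg (n + 1))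
    (hq : ∑ i, m i • q i = 0) : cf m (fun i => q (Fin.castSucc i)) = q := by
  funext i
  refine Fin.lastCases ?_ (fun i => ?_) i
  · simp only [cf, Fin.snoc_last]
    rw [Fin.sum_univ_castSucc] at hq
    have h1 : ∑ i : Fin n, m i.castSucc • q i.castSucc = -(m (Fin.last n) • q (Fin.last n)) :=
      eq_neg_of_add_eq_zero_left hq
    rw [h1, smul_neg, neg_neg, smul_smul, inv_mul_cancel₀ (hm _).ne', one_smul]
  · simp only [cf, Fin.snoc_castSucc]

theorem ae_free (m : Fin (n + 1) → ℝ) (hm : ∀ i, 0 < m i) :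
    ∀ᵐ x : Fin n → E3, ∀ i j, i ≠ j → cf m x i ≠ cf m x j := by
  rw [ae_all_iff]
  intro i
  rw [ae_all_iff]
  intro j
  by_cases hij : i = j
  · exact Filter.Eventually.of_forall fun x h => absurd hij h
  let L : (Fin n → E3) →ₗ[ℝ] E3 :=
    (prj i - prj j).comp (cfL m)
  have hL : ∀ x, L x = cf m x i - cf m x j := fun x => rfl
  have hne : LinearMap.ker L ≠ ⊤ := by
    intro htop
    obtain ⟨v, hv⟩ := exists_ne (0 : E3)
    let q : Cfg (n + 1) := Pi.single i (m j • v) + Pi.single j (-(m i • v))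
    have hq : ∑ k, m k • q k = 0 := by
      simp only [q, Pi.add_apply, smul_add, Finset.sum_add_distrib]
      rw [Finset.sum_eq_single i, Finset.sum_eq_single j]
      · rw [Pi.single_eq_same, Pi.single_eq_same, smul_neg, smul_smul, smul_smul, mul_comm,
          add_neg_cancel]
      · intro k _ hk; rw [Pi.single_eq_of_ne hk, smul_zero]
      · intro h; exact absurd (Finset.mem_univ _) h
      · intro k _ hk; rw [Pi.single_eq_of_ne hk, smul_zero]
      · intro h; exact absurd (Finset.mem_univ _) h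
    have h1 : (fun k => q (Fin.castSucc k)) ∈ LinearMap.ker L := by rw [htop]; trivial
    rw [LinearMap.mem_ker, hL, cf_of m hm q hq] at h1
    have h2 : q i = m j • v := by
      simp only [q, Pi.add_apply, Pi.single_eq_same, Pi.single_eq_of_ne hij, add_zero]
    have h3 : q j = -(m i • v) := by
      simp only [q, Pi.add_apply, Pi.single_eq_same, Pi.single_eq_of_ne (Ne.symm hij), zero_add]
    rw [h2, h3, sub_neg_eq_add, ← add_smul, smul_eq_zero] at h1
    rcases h1 with h1 | h1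
    · have := hm i; have := hm j; linarith
    · exact hv h1
  have h0 := Measure.addHaar_submodule (volume : Measure (Fin n → E3)) (LinearMap.ker L) hne
  rw [measure_eq_zero_iff_ae_notMem] at h0
  filter_upwards [h0] with x hx _ h
  exact hx (by
    show x ∈ LinearMap.ker L
    rw [LinearMap.mem_ker, hL, h, sub_self])

theorem pot_le {N : ℕ} (m : Fin N → ℝ) (hm : ∀ i, 0 < m i) (q : Cfg N) (r : ℝ) (hr : 0 < r)
    (h : ∀ i j, i ≠ j → r ≤ ‖q i - q j‖) : pot m q ≤ (∑ i, m i) ^ 2 / r := by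
  have h1 : pot m q ≤ ∑ i, ∑ j, m i * m j / r := by
    unfold pot
    refine Finset.sum_le_sum fun i _ => Finset.sum_le_sum fun j _ => ?_
    have hi := hm i
    have hj := hm j
    have h0 : 0 ≤ m i * m j / r := by positivity
    by_cases hij : i = j
    · rw [← hij, sub_self, norm_zero, div_zero, zero_div]
      positivity
    · have h2 := h i j hij
      have h3 : m i * m j / ‖q i - q j‖ ≤ m i * m j / r := by gcongr
      have h4 : 0 ≤ m i * m j / ‖q i - q j‖ := by positivity
      linarith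
  refine h1.trans (le_of_eq ?_)
  rw [sq, Finset.sum_mul_sum, Finset.sum_div]
  exact Finset.sum_congr rfl fun i _ => by rw [Finset.sum_div]

theorem le_pot {N : ℕ} (m : Fin N → ℝ) (hm : ∀ i, 0 < m i) (q : Cfg N) (a b : Fin N)
    (hab : a ≠ b) : m a * m b / ‖q a - q b‖ ≤ pot m q := by
  unfold pot
  have hnn : ∀ i j, 0 ≤ m i * m j / ‖q i - q j‖ / 2 := fun i j => by
    have := hm i; have := hm j; positivity
  have h1 : ∀ i j, m i * m j / ‖q i - q j‖ / 2 ≤ ∑ j, m i * m j / ‖q i - q j‖ / 2 := fun i j =>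
    Finset.single_le_sum (f := fun j => m i * m j / ‖q i - q j‖ / 2) (fun j _ => hnn i j)
      (Finset.mem_univ j)
  have h2 : (∑ j, m a * m j / ‖q a - q j‖ / 2) + (∑ j, m b * m j / ‖q b - q j‖ / 2)
      ≤ ∑ i, ∑ j, m i * m j / ‖q i - q j‖ / 2 := by
    have := Finset.sum_le_sum_of_subset_of_nonneg (s := {a, b}) (t := Finset.univ)
      (f := fun i => ∑ j, m i * m j / ‖q i - q j‖ / 2) (Finset.subset_univ _)
      (fun i _ _ => Finset.sum_nonneg fun j _ => hnn i j)
    rwa [Finset.sum_pair hab] at this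
  have h3 := h1 a b
  have h4 := h1 b a
  have h5 : m b * m a / ‖q b - q a‖ / 2 = m a * m b / ‖q a - q b‖ / 2 := by
    rw [mul_comm (m b), norm_sub_rev]
  linarith

end general

theorem sum3 {V : Type*} [AddCommMonoid V] (f : Fin 3 → V) (a b c : Fin 3) (hab : a ≠ b)
    (hac : a ≠ c) (hbc : b ≠ c) : ∑ i, f i = f a + f b + f c := by
  have h : (Finset.univ : Finset (Fin 3)) = {a, b, c} := by
    revert a b c; decide
  rw [h, Finset.sum_insert (by simp [hab, hac]), Finset.sum_pair hbc, add_assoc]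

/-- coordinates `(q_a - q_b, q_c)` -/
noncomputable def T3 (m : Fin 3 → ℝ) (a b c : Fin 3) : (Fin 2 → E3) →ₗ[ℝ] E3 × E3 :=
  ((prj a - prj b).prod (prj c)).comp (cfL (n := 2) m)

theorem T3_apply (m : Fin 3 → ℝ) (a b c : Fin 3) (x : Fin 2 → E3) :
    T3 m a b c x = (cf (n := 2) m x a - cf (n := 2) m x b, cf (n := 2) m x c) := rfl

theorem T3_inj (m : Fin 3 → ℝ) (hm : ∀ i, 0 < m i) (a b c : Fin 3) (hab : a ≠ b)
    (hac : a ≠ c) (hbc : b ≠ c) : Function.Injective (T3 m a b c) := by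
  rw [← LinearMap.ker_eq_bot, LinearMap.ker_eq_bot']
  intro x hx
  rw [T3_apply, Prod.mk_eq_zero] at hx
  obtain ⟨h1, h2⟩ := hx
  have h3 := cf_cen (n := 2) m hm x
  rw [sum3 _ a b c hab hac hbc, h2, smul_zero, add_zero, sub_eq_zero.1 h1, ← add_smul,
    smul_eq_zero] at h3
  have h4 : cf (n := 2) m x b = 0 := by
    rcases h3 with h3 | h3
    · have := hm a; have := hm b; linarith
    · exact h3
  refine cf_inj (n := 2) m x ?_
  funext i
  have hi : i = a ∨ i = b ∨ i = c := by
    clear h1 h2 h3 h4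
    revert a b c i
    decide
  rcases hi with rfl | rfl | rfl
  · rw [sub_eq_zero.1 h1, h4]; rfl
  · rw [h4]; rfl
  · rw [h2]; rfl

theorem T3_int (m : Fin 3 → ℝ) (hm : ∀ i, 0 < m i) (a b c : Fin 3) (hab : a ≠ b)
    (hac : a ≠ c) (hbc : b ≠ c) : ∃ κ : ℝ, 0 < κ ∧ ∀ (s t u v : ℝ), s < 3 → t < 3 → 0 < u → 0 < v →
    ∫⁻ x, pw s u (T3 m a b c x).1 * pw t v (T3 m a b c x).2 =
      ENNReal.ofReal (κ * (cs s * u ^ (3 - s)) * (cs t * v ^ (3 - t))) := by
  haveI : (volume : Measure (E3 × E3)).IsAddHaarMeasure :=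
    inferInstanceAs ((volume : Measure E3).prod (volume : Measure E3)).IsAddHaarMeasure
  obtain ⟨k, hk0, hkt, hk⟩ := transfer (T3 m a b c) (T3_inj m hm a b c hab hac hbc)
    (by rw [Module.finrank_prod, Module.finrank_pi_fintype]; simp)
  refine ⟨k.toReal, ENNReal.toReal_pos hk0 hkt, ?_⟩
  intro s t u v hs ht hu hv
  have h1 := hk (fun z => pw s u z.1 * pw t v z.2)
  rw [h1]
  have h2 : ∫⁻ z : E3 × E3, pw s u z.1 * pw t v z.2 =
      (∫⁻ y, pw s u y) * ∫⁻ y, pw t v y := by
    rw [Measure.volume_eq_prod]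
    exact lintegral_prod_mul (pw_meas s u).aemeasurable (pw_meas t v).aemeasurable
  have c1 := cs_pos hs
  have c2 := cs_pos ht
  rw [h2, lint_pw hs hu, lint_pw ht hv, ← ENNReal.ofReal_mul (by positivity), mul_assoc k.toReal,
    ENNReal.ofReal_mul ENNReal.toReal_nonneg, ENNReal.ofReal_toReal hkt]

end Pool.Agent.L5helper85.NB
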