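import Pool.Agent.L5helper85.NB.Three

set_option autoImplicit false

/-! # Three bodies: the Liouville measure of the nonwandering points (helper85) -/

namespace Pool.Agent.L5helper85.NB

open MeasureTheory Set Metric Pool.Agent.Y516.NW

theorem pw_zero {R : ℝ} {y : E3} (hy : ‖y‖ ≤ R) : pw 0 R y = 1 := by
  unfold pw
  rw [indicator_of_mem (by simpa using hy), neg_zero, ENNReal.rpow_zero]

theorem upper3 (m : Fin 3 → ℝ) (hm : ∀ i, 0 < m i) (s t : ℝ) (hs : s < 3) (ht : t < 3) :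
    ∃ κ : ℝ, 0 < κ ∧ ∀ (c u v : ℝ), 0 ≤ c → 0 < u → 0 < v → ∀ g : (Fin 2 → E3) → ENNReal,
    (∀ x, ∃ k : Fin 3, g x ≤ ENNReal.ofReal c * (pw s u (T3 m k (k + 1) (k + 2) x).1 *
      pw t v (T3 m k (k + 1) (k + 2) x).2)) →
    ∫⁻ x, g x ≤ ENNReal.ofReal (κ * c * u ^ (3 - s) * v ^ (3 - t)) := by
  have hk : ∀ k : Fin 3, k ≠ k + 1 ∧ k ≠ k + 2 ∧ k + 1 ≠ k + 2 := by decide
  choose κ hκ hint using fun k : Fin 3 =>
    T3_int m hm k (k + 1) (k + 2) (hk k).1 (hk k).2.1 (hk k).2.2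
  have c1 := cs_pos hs
  have c2 := cs_pos ht
  refine ⟨(∑ k, κ k) * cs s * cs t, ?_, ?_⟩
  · have : 0 < ∑ k, κ k := Finset.sum_pos (fun k _ => hκ k) ⟨0, Finset.mem_univ _⟩
    positivity
  intro c u v hc hu hv g hg
  have hmeas : ∀ k : Fin 3, Measurable fun x => ENNReal.ofReal c *
      (pw s u (T3 m k (k + 1) (k + 2) x).1 * pw t v (T3 m k (k + 1) (k + 2) x).2) := by
    intro k
    have hT : Measurable (T3 m k (k + 1) (k + 2)) :=
      (LinearMap.continuous_of_finiteDimensional _).measurable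
    exact (((pw_meas s u).comp (measurable_fst.comp hT)).mul
      ((pw_meas t v).comp (measurable_snd.comp hT))).const_mul _
  calc ∫⁻ x, g x ≤ ∫⁻ x, ∑ k : Fin 3, ENNReal.ofReal c *
        (pw s u (T3 m k (k + 1) (k + 2) x).1 * pw t v (T3 m k (k + 1) (k + 2) x).2) := by
        refine lintegral_mono fun x => ?_
        obtain ⟨k, hk⟩ := hg x
        exact hk.trans (Finset.single_le_sum (f := fun k : Fin 3 => ENNReal.ofReal c *
          (pw s u (T3 m k (k + 1) (k + 2) x).1 * pw t v (T3 m k (k + 1) (k + 2) x).2))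
          (fun _ _ => zero_le) (Finset.mem_univ k))
    _ = ∑ k : Fin 3, ENNReal.ofReal (c * (κ k * (cs s * u ^ (3 - s)) * (cs t * v ^ (3 - t)))) := by
        rw [lintegral_finsetSum _ fun k _ => hmeas k]
        refine Finset.sum_congr rfl fun k _ => ?_
        rw [lintegral_const_mul', hint k s t u v hs ht hu hv, ← ENNReal.ofReal_mul hc]
        exact ENNReal.ofReal_ne_top
    _ = ENNReal.ofReal (∑ k, c * (κ k * (cs s * u ^ (3 - s)) * (cs t * v ^ (3 - t)))) := by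
        rw [ENNReal.ofReal_sum_of_nonneg]
        intro k _
        have := hκ k
        positivity
    _ = _ := by
        congr 1
        rw [← Finset.mul_sum, ← Finset.sum_mul, ← Finset.sum_mul]
        ring

theorem close_pair (q : Cfg 3) : ∃ k : Fin 3, ‖q k - q (k + 1)‖ ≤ ‖q k - q (k + 2)‖ ∧
    ‖q k - q (k + 1)‖ ≤ ‖q (k + 1) - q (k + 2)‖ := by
  have e1 : ‖q 1 - q 0‖ = ‖q 0 - q 1‖ := norm_sub_rev _ _
  have e2 : ‖q 2 - q 0‖ = ‖q 0 - q 2‖ := norm_sub_rev _ _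
  have e3 : ‖q 2 - q 1‖ = ‖q 1 - q 2‖ := norm_sub_rev _ _
  rcases le_total ‖q 0 - q 1‖ ‖q 0 - q 2‖ with h1 | h1
  · rcases le_total ‖q 0 - q 1‖ ‖q 1 - q 2‖ with h2 | h2
    · exact ⟨0, h1, h2⟩
    · exact ⟨1, by show ‖q 1 - q 2‖ ≤ ‖q 1 - q 0‖; linarith,
        by show ‖q 1 - q 2‖ ≤ ‖q 2 - q 0‖; linarith⟩
  · rcases le_total ‖q 0 - q 2‖ ‖q 1 - q 2‖ with h2 | h2
    · exact ⟨2, by show ‖q 2 - q 0‖ ≤ ‖q 2 - q 1‖; linarith,
        by show ‖q 2 - q 0‖ ≤ ‖q 0 - q 1‖; linarith⟩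
    · exact ⟨1, by show ‖q 1 - q 2‖ ≤ ‖q 1 - q 0‖; linarith,
        by show ‖q 1 - q 2‖ ≤ ‖q 2 - q 0‖; linarith⟩

/-- the part of the energy surface with all bodies within `R` of the centre of mass -/
def BallS (m : Fin 3 → ℝ) (E R : ℝ) : Set (Cfg 3 × Cfg 3) :=
  {z | z ∈ Surf m E ∧ ∀ i, ‖z.1 i‖ ≤ R}

/-- elementary facts over a configuration with close pair `a, b` and `K > 0` -/
theorem facts (m : Fin 3 → ℝ) (hm : ∀ i, 0 < m i) (E : ℝ) (hE : E < 0) (x : Fin 2 → E3)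
    (hx : ∀ i j, i ≠ j → cf (n := 2) m x i ≠ cf (n := 2) m x j)
    (hK : 0 < pot m (cf (n := 2) m x) + E) : ∃ k : Fin 3,
    (∀ i j, P2 k (k + 1) i j → ‖cf (n := 2) m x (k + 2)‖ / 2 ≤ ‖cf (n := 2) m x i - cf (n := 2) m x j‖) ∧
    (∀ i j, P2 k (k + 1) i j → 0 < ‖cf (n := 2) m x i - cf (n := 2) m x j‖) ∧
    0 < ‖cf (n := 2) m x k - cf (n := 2) m x (k + 1)‖ ∧
    ‖cf (n := 2) m x k - cf (n := 2) m x (k + 1)‖ ≤ (∑ i, m i) ^ 2 / |E| ∧
    pot m (cf (n := 2) m x) + E ≤ (∑ i, m i) ^ 2 / ‖cf (n := 2) m x k - cf (n := 2) m x (k + 1)‖ := by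
  obtain ⟨q, hq⟩ : ∃ q, q = cf (n := 2) m x := ⟨_, rfl⟩
  have hcen := cf_cen (n := 2) m hm x
  rw [← hq] at hx hK hcen ⊢
  obtain ⟨k, h1, h2⟩ := close_pair q
  have hk : ∀ k : Fin 3, k ≠ k + 1 ∧ k ≠ k + 2 ∧ k + 1 ≠ k + 2 := by decide
  have hr : 0 < ‖q k - q (k + 1)‖ := norm_pos_iff.2 (sub_ne_zero.2 (hx _ _ (hk k).1))
  have hpairs : ∀ (k i j : Fin 3), P2 k (k + 1) i j → (i = k ∧ j = k + 2) ∨ (i = k + 2 ∧ j = k) ∨
      (i = k + 1 ∧ j = k + 2) ∨ (i = k + 2 ∧ j = k + 1) := by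
    unfold P2; decide
  have hall : ∀ i j : Fin 3, i ≠ j → ‖q k - q (k + 1)‖ ≤ ‖q i - q j‖ := by
    intro i j hij
    by_cases h3 : i = k ∧ j = k + 1
    · rw [h3.1, h3.2]
    by_cases h4 : i = k + 1 ∧ j = k
    · rw [h4.1, h4.2, norm_sub_rev]
    rcases hpairs k i j ⟨hij, h3, h4⟩ with ⟨rfl, rfl⟩ | ⟨rfl, rfl⟩ | ⟨rfl, rfl⟩ | ⟨rfl, rfl⟩
    · exact h1
    · rw [norm_sub_rev (q (j + 2))]; exact h1
    · exact h2
    · rw [norm_sub_rev (q (k + 2))]; exact h2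
  have hpot := pot_le m hm q _ hr hall
  have hEabs : |E| = -E := abs_of_neg hE
  -- the third body
  have hM : 0 < m k + m (k + 1) + m (k + 2) := by
    have := hm k; have := hm (k + 1); have := hm (k + 2); positivity
  have hthird : ∀ d : ℝ, ‖q k - q (k + 2)‖ ≤ d → ‖q (k + 1) - q (k + 2)‖ ≤ d →
      ‖q (k + 2)‖ ≤ d := by
    intro d hd1 hd2
    rw [sum3 _ k (k + 1) (k + 2) (hk k).1 (hk k).2.1 (hk k).2.2] at hcen
    have h3 : (m k + m (k + 1) + m (k + 2)) • q (k + 2) =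
        m k • (q (k + 2) - q k) + m (k + 1) • (q (k + 2) - q (k + 1)) := by
      have : (m k + m (k + 1) + m (k + 2)) • q (k + 2) =
        m k • (q (k + 2) - q k) + m (k + 1) • (q (k + 2) - q (k + 1)) +
          (m k • q k + m (k + 1) • q (k + 1) + m (k + 2) • q (k + 2)) := by
        simp only [add_smul, smul_sub]; abel
      rw [this, hcen, add_zero]
    have h4 : (m k + m (k + 1) + m (k + 2)) * ‖q (k + 2)‖ ≤ m k * d + m (k + 1) * d := by
      calc (m k + m (k + 1) + m (k + 2)) * ‖q (k + 2)‖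
          = ‖(m k + m (k + 1) + m (k + 2)) • q (k + 2)‖ := by
            rw [norm_smul, Real.norm_eq_abs, abs_of_pos hM]
        _ ≤ ‖m k • (q (k + 2) - q k)‖ + ‖m (k + 1) • (q (k + 2) - q (k + 1))‖ := by
            rw [h3]; exact norm_add_le _ _
        _ = m k * ‖q k - q (k + 2)‖ + m (k + 1) * ‖q (k + 1) - q (k + 2)‖ := by
            rw [norm_smul, norm_smul, Real.norm_eq_abs, Real.norm_eq_abs, abs_of_pos (hm _),
              abs_of_pos (hm _), norm_sub_rev, norm_sub_rev (q (k + 2))]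
        _ ≤ _ := by
            have := hm k; have := hm (k + 1)
            gcongr
    have hd : 0 ≤ d := (norm_nonneg _).trans hd1
    have h5 : (m k + m (k + 1) + m (k + 2)) * ‖q (k + 2)‖ ≤
        (m k + m (k + 1) + m (k + 2)) * d := by
      have := mul_nonneg (hm (k + 2)).le hd
      linarith
    exact le_of_mul_le_mul_left h5 hM
  have htri1 : ‖q k - q (k + 2)‖ ≤ 2 * ‖q (k + 1) - q (k + 2)‖ := by
    have : q k - q (k + 2) = (q k - q (k + 1)) + (q (k + 1) - q (k + 2)) := by abel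
    rw [this]
    have := norm_add_le (q k - q (k + 1)) (q (k + 1) - q (k + 2))
    linarith
  have htri2 : ‖q (k + 1) - q (k + 2)‖ ≤ 2 * ‖q k - q (k + 2)‖ := by
    have : q (k + 1) - q (k + 2) = -(q k - q (k + 1)) + (q k - q (k + 2)) := by abel
    rw [this]
    have := norm_add_le (-(q k - q (k + 1))) (q k - q (k + 2))
    rw [norm_neg] at this
    linarith
  have hA : ‖q (k + 2)‖ ≤ 2 * ‖q k - q (k + 2)‖ :=
    hthird _ (by linarith [norm_nonneg (q k - q (k + 2))]) htri2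
  have hB : ‖q (k + 2)‖ ≤ 2 * ‖q (k + 1) - q (k + 2)‖ :=
    hthird _ htri1 (by linarith [norm_nonneg (q (k + 1) - q (k + 2))])
  refine ⟨k, ?_, ?_, hr, ?_, by linarith⟩
  · intro i j hij
    rcases hpairs k i j hij with ⟨rfl, rfl⟩ | ⟨rfl, rfl⟩ | ⟨rfl, rfl⟩ | ⟨rfl, rfl⟩
    · linarith
    · rw [norm_sub_rev (q (j + 2))]; linarith
    · linarith
    · rw [norm_sub_rev (q (k + 2)) (q (k + 1))]; linarith
  · intro i j hij
    exact norm_pos_iff.2 (sub_ne_zero.2 (hx _ _ hij.1))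
  · rw [hEabs, le_div_iff₀ (by linarith)]
    have h3 : -E < (∑ i, m i) ^ 2 / ‖q k - q (k + 1)‖ := by linarith
    rw [lt_div_iff₀ hr] at h3
    linarith

end Pool.Agent.L5helper85.NB
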