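import Pool.Agent.L5helper85.NB.ThreeB

set_option autoImplicit false

/-! # Three bodies: the theorem (helper85) -/

namespace Pool.Agent.L5helper85.NB

open MeasureTheory Set Metric Pool.Agent.Y516.NW

/-- a factor `ofReal` of the volume of the kinetic ball -/
theorem V0_eq {n : ℕ} (m : Fin (n + 1) → ℝ) (hm : ∀ i, 0 < m i) :
    ENNReal.ofReal (V0 m).toReal = V0 m := ENNReal.ofReal_toReal (V0_lt m hm).ne

/-- trivial bound of the density -/
theorem dens_triv (m : Fin 3 → ℝ) (hm : ∀ i, 0 < m i) (E : ℝ) (hE : E < 0) (R : ℝ)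
    (x : Fin 2 → E3) : ∃ k : Fin 3, dens (n := 2) m E 2 (BallS m E R) x ≤
      ENNReal.ofReal ((∑ i, m i) ^ 4 * (V0 (n := 2) m).toReal) *
      (pw 2 ((∑ i, m i) ^ 2 / |E|) (T3 m k (k + 1) (k + 2) x).1 *
      pw 0 R (T3 m k (k + 1) (k + 2) x).2) := by
  by_cases hz : ¬ (0 < pot m (cf (n := 2) m x) + E) ∨ ∀ p, (cf (n := 2) m x, p) ∉ BallS m E R
  · exact ⟨0, by rw [dens_zero (n := 2) m E 2 _ x hz]; exact zero_le⟩
  rw [not_or, not_not, not_forall] at hz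
  obtain ⟨hK, p, hp⟩ := hz
  rw [not_not] at hp
  obtain ⟨⟨hx, -⟩, hR⟩ := hp
  obtain ⟨k, h1, h2, hr, hrle, hKle⟩ := facts m hm E hE x hx hK
  refine ⟨k, (dens_le (n := 2) m E 2 _ x).trans ?_⟩
  dsimp only at hx hR
  rw [T3_apply, pw_eq (norm_pos_iff.1 hr) hrle, pw_zero (hR _), mul_one,
    ENNReal.ofReal_mul (by positivity), V0_eq (n := 2) m hm, mul_right_comm,
    ← ENNReal.ofReal_mul (by positivity)]
  gcongr
  obtain ⟨r, hrd⟩ : ∃ r, r = ‖cf (n := 2) m x k - cf (n := 2) m x (k + 1)‖ := ⟨_, rfl⟩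
  obtain ⟨K, hKd⟩ : ∃ K, K = pot m (cf (n := 2) m x) + E := ⟨_, rfl⟩
  rw [← hrd] at hKle hr ⊢
  rw [← hKd] at hKle hK ⊢
  rw [Real.rpow_neg hr.le, Real.rpow_two, Real.rpow_two]
  calc K ^ 2 ≤ ((∑ i, m i) ^ 2 / r) ^ 2 := by gcongr
    _ = _ := by rw [div_pow]; field_simp

/-- bound of the density of the nonwandering points -/
theorem dens_om (m : Fin 3 → ℝ) (hm : ∀ i, 0 < m i) : ∃ C : ℝ, 0 < C ∧ ∀ E : ℝ, E < 0 →
    ∀ (ψ : Cfg 3 × Cfg 3 → ℝ) (φ : ℝ → Cfg 3 × Cfg 3 → Cfg 3 × Cfg 3), IsFl m E ψ φ → ∀ R : ℝ,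
    0 < R → ∀ x : Fin 2 → E3, ∃ k : Fin 3,
      dens (n := 2) m E 2 {z | z ∈ BallS m E R ∧ NonW (Surf m E) φ z} x ≤
      ENNReal.ofReal C * (pw (1 / 2) ((∑ i, m i) ^ 2 / |E|) (T3 m k (k + 1) (k + 2) x).1 *
      pw (3 / 2) R (T3 m k (k + 1) (k + 2) x).2) := by
  obtain ⟨C, hC, h⟩ := dens_nonw (n := 2) le_rfl m hm
  have hMs : 0 < ∑ i, m i := Finset.sum_pos (fun i _ => hm i) ⟨0, Finset.mem_univ _⟩
  have hV : 0 < (V0 (n := 2) m).toReal :=
    ENNReal.toReal_pos (V0_pos (n := 2) m hm).ne' (V0_lt (n := 2) m hm).ne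
  refine ⟨C * ((∑ i, m i) ^ 2) ^ (1 / 2 : ℝ) * 2 ^ (3 / 2 : ℝ) * (V0 (n := 2) m).toReal,
    by positivity, ?_⟩
  intro E hE ψ φ hφ R hR0 x
  by_cases hz : ¬ (0 < pot m (cf (n := 2) m x) + E) ∨
      ∀ p, (cf (n := 2) m x, p) ∉ {z | z ∈ BallS m E R ∧ NonW (Surf m E) φ z}
  · exact ⟨0, by rw [dens_zero (n := 2) m E 2 _ x hz]; exact zero_le⟩
  rw [not_or, not_not, not_forall] at hz
  obtain ⟨hK, p, hp⟩ := hz
  rw [not_not] at hp
  obtain ⟨⟨⟨hx, -⟩, hR⟩, -⟩ := hp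
  obtain ⟨k, h1, h2, hr, hrle, hKle⟩ := facts m hm E hE x hx hK
  dsimp only at hx hR
  refine ⟨k, ?_⟩
  rw [T3_apply, pw_eq (norm_pos_iff.1 hr) hrle]
  by_cases hy : cf (n := 2) m x (k + 2) = 0
  · rw [hy, pw_top (by norm_num) hR0.le, ENNReal.mul_top
      (by rw [ne_eq, ENNReal.ofReal_eq_zero, not_le]; positivity),
      ENNReal.mul_top (by rw [ne_eq, ENNReal.ofReal_eq_zero, not_le]; positivity)]
    exact le_top
  rw [pw_eq hy (hR _)]
  have hy0 : 0 < ‖cf (n := 2) m x (k + 2)‖ := norm_pos_iff.2 hy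
  have hkk : ∀ k : Fin 3, k ≠ k + 1 := by decide
  refine (h E 2 hE.le ψ φ hφ x hx k (k + 1) (hkk k) (‖cf (n := 2) m x (k + 2)‖ / 2)
    (by positivity) h1 hK _ (fun z hz => hz.2)).trans ?_
  obtain ⟨r, hrd⟩ : ∃ r, r = ‖cf (n := 2) m x k - cf (n := 2) m x (k + 1)‖ := ⟨_, rfl⟩
  obtain ⟨K, hKd⟩ : ∃ K, K = pot m (cf (n := 2) m x) + E := ⟨_, rfl⟩
  obtain ⟨y, hyd⟩ : ∃ y, y = ‖cf (n := 2) m x (k + 2)‖ := ⟨_, rfl⟩
  rw [← hrd] at hKle hr ⊢
  rw [← hKd] at hKle hK ⊢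
  rw [← hyd] at hy0 ⊢
  rw [← V0_eq (n := 2) m hm, ← ENNReal.ofReal_mul (by positivity),
    ← ENNReal.ofReal_mul (by positivity), ← ENNReal.ofReal_mul (by positivity)]
  refine ENNReal.ofReal_le_ofReal ?_
  rw [V0_eq (n := 2) m hm]
  have e1 : K ^ (2 - 3 / 2 : ℝ) ≤ ((∑ i, m i) ^ 2) ^ (1 / 2 : ℝ) * r ^ (-(1 / 2) : ℝ) := by
    calc K ^ (2 - 3 / 2 : ℝ) = K ^ (1 / 2 : ℝ) := by norm_num
      _ ≤ ((∑ i, m i) ^ 2 / r) ^ (1 / 2 : ℝ) := by gcongr
      _ = _ := by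
        rw [Real.div_rpow (by positivity) hr.le, Real.rpow_neg hr.le]; field_simp
  have e2 : (y / 2) ^ (-(3 / 2) : ℝ) = 2 ^ (3 / 2 : ℝ) * y ^ (-(3 / 2) : ℝ) := by
    rw [Real.div_rpow hy0.le (by norm_num), Real.rpow_neg (by norm_num : (0:ℝ) ≤ 2),
      div_inv_eq_mul, mul_comm]
  rw [e2]
  calc C * K ^ (2 - 3 / 2 : ℝ) * (2 ^ (3 / 2 : ℝ) * y ^ (-(3 / 2) : ℝ)) * (V0 (n := 2) m).toReal
      ≤ C * (((∑ i, m i) ^ 2) ^ (1 / 2 : ℝ) * r ^ (-(1 / 2) : ℝ)) *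
        (2 ^ (3 / 2 : ℝ) * y ^ (-(3 / 2) : ℝ)) * (V0 (n := 2) m).toReal := by gcongr
    _ = _ := by ring

/-- **Three bodies with negative energy.** -/
theorem three (m : Fin 3 → ℝ) (hm : ∀ i, 0 < m i) : ∃ C : ℝ, 0 < C ∧ ∀ E : ℝ, E < 0 →
    (∀ R : ℝ, 0 < R → lv (n := 2) m E 2 (BallS m E R) ≤ ENNReal.ofReal (C * R ^ 3 / |E|)) ∧
    (∀ R : ℝ, C / |E| ≤ R → ENNReal.ofReal (R ^ 3 / (C * |E|)) ≤ lv (n := 2) m E 2 (BallS m E R)) ∧
    ∀ (ψ : Cfg 3 × Cfg 3 → ℝ) (φ : ℝ → Cfg 3 × Cfg 3 → Cfg 3 × Cfg 3), IsFl m E ψ φ →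
    ∀ R : ℝ, 0 < R → lv (n := 2) m E 2 {z | z ∈ BallS m E R ∧ NonW (Surf m E) φ z} ≤
      ENNReal.ofReal (C * R ^ (3 / 2 : ℝ) * |E| ^ (-(5 / 2) : ℝ)) := by
  obtain ⟨M, hMd⟩ : ∃ M, M = ∑ i, m i := ⟨_, rfl⟩
  have hM : 0 < M := by rw [hMd]; exact Finset.sum_pos (fun i _ => hm i) ⟨0, Finset.mem_univ _⟩
  have hV : 0 < (V0 (n := 2) m).toReal :=
    ENNReal.toReal_pos (V0_pos (n := 2) m hm).ne' (V0_lt (n := 2) m hm).ne
  obtain ⟨κ1, hκ1, hup1⟩ := upper3 m hm 2 0 (by norm_num) (by norm_num)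
  obtain ⟨κ2, hκ2, hup2⟩ := upper3 m hm (1 / 2) (3 / 2) (by norm_num) (by norm_num)
  obtain ⟨C0, hC0, hom⟩ := dens_om m hm
  obtain ⟨κ3, hκ3, hint3⟩ := T3_int m hm 0 1 2 (by decide) (by decide) (by decide)
  rw [← hMd] at hom
  -- the constants
  obtain ⟨A1, hA1⟩ : ∃ A, A = κ1 * (M ^ 4 * (V0 (n := 2) m).toReal) * M ^ 2 := ⟨_, rfl⟩
  obtain ⟨A2, hA2⟩ : ∃ A, A = κ2 * C0 * (M ^ 2) ^ (5 / 2 : ℝ) := ⟨_, rfl⟩
  obtain ⟨w, hw⟩ : ∃ w, w = m 0 * m 1 / 2 := ⟨_, rfl⟩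
  obtain ⟨η, hη⟩ : ∃ η, η = (m 0 + m 1) / (2 * M) := ⟨_, rfl⟩
  have hm0 := hm 0
  have hm1 := hm 1
  have hm2 := hm 2
  have hw0 : 0 < w := by rw [hw]; positivity
  have hη0 : 0 < η := by rw [hη]; positivity
  obtain ⟨A3, hA3⟩ : ∃ A, A = w ^ 2 * (V0 (n := 2) m).toReal *
      (κ3 * (cs 2 * w) * (cs 0 * η ^ 3)) := ⟨_, rfl⟩
  have hcs2 := cs_pos (s := 2) (by norm_num)
  have hcs0 := cs_pos (s := 0) (by norm_num)
  have hA3p : 0 < A3 := by rw [hA3]; positivity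
  have hA1p : 0 < A1 := by rw [hA1]; positivity
  have hA2p : 0 < A2 := by rw [hA2]; positivity
  refine ⟨A1 + A2 + 1 / A3 + 2 * w, by positivity, ?_⟩
  intro E hE
  have hEp : 0 < |E| := abs_pos.2 hE.ne
  have hEe : |E| = -E := abs_of_neg hE
  refine ⟨?_, ?_, ?_⟩
  · intro R hR
    have h1 := hup1 (M ^ 4 * (V0 (n := 2) m).toReal) (M ^ 2 / |E|) R (by positivity)
      (by positivity) hR (dens (n := 2) m E 2 (BallS m E R)) (fun x => by
        have := dens_triv m hm E hE R x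
        rwa [← hMd] at this)
    refine h1.trans (ENNReal.ofReal_le_ofReal ?_)
    have e1 : (M ^ 2 / |E|) ^ (3 - 2 : ℝ) = M ^ 2 / |E| := by norm_num
    have e2 : R ^ (3 - 0 : ℝ) = R ^ 3 := by
      rw [sub_zero]; exact_mod_cast Real.rpow_natCast R 3
    rw [e1, e2]
    have e3 : κ1 * (M ^ 4 * (V0 (n := 2) m).toReal) * (M ^ 2 / |E|) * R ^ 3 = A1 * R ^ 3 / |E| := by
      rw [hA1]; ring
    rw [e3]
    have h3 : 0 ≤ A2 + 1 / A3 + 2 * w := by positivity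
    gcongr
    linarith
  · intro R hRC
    have hR : 2 * w / |E| ≤ R := by
      refine le_trans ?_ hRC
      gcongr
      have : 0 ≤ A1 + A2 + 1 / A3 := by positivity
      linarith
    have hRp : 0 < R := lt_of_lt_of_le (by positivity) hR
    obtain ⟨u, hu⟩ : ∃ u, u = w / |E| := ⟨_, rfl⟩
    have hup : 0 < u := by rw [hu]; positivity
    have huR : 2 * u ≤ R := by rw [hu]; rw [← mul_div_assoc]; exact hR
    have hpt : ∀ᵐ x : Fin 2 → E3, ENNReal.ofReal (w ^ 2 * (V0 (n := 2) m).toReal) *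
        (pw 2 u (T3 m 0 1 2 x).1 * pw 0 (η * R) (T3 m 0 1 2 x).2) ≤
        dens (n := 2) m E 2 (BallS m E R) x := by
      filter_upwards [ae_free (n := 2) m hm] with x hx
      rw [T3_apply]
      obtain ⟨q, hq⟩ : ∃ q, q = cf (n := 2) m x := ⟨_, rfl⟩
      have hcen := cf_cen (n := 2) m hm x
      rw [← hq] at hx hcen
      simp only [← hq]
      by_cases hru : ‖q 0 - q 1‖ ≤ u
      swap
      · have : pw 2 u (q 0 - q 1) = 0 := by
          unfold pw; rw [indicator_of_notMem (by simpa using hru)]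
        rw [this, zero_mul, mul_zero]; exact zero_le
      by_cases hyR : ‖q 2‖ ≤ η * R
      swap
      · have : pw 0 (η * R) (q 2) = 0 := by
          unfold pw; rw [indicator_of_notMem (by simpa using hyR)]
        rw [this, mul_zero, mul_zero]; exact zero_le
      have hr : 0 < ‖q 0 - q 1‖ := norm_pos_iff.2 (sub_ne_zero.2 (hx 0 1 (by decide)))
      have hpot := le_pot m hm q 0 1 (by decide)
      have hKlow : w / ‖q 0 - q 1‖ ≤ pot m q + E := by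
        have h1 : |E| ≤ w / ‖q 0 - q 1‖ := by
          rw [le_div_iff₀ hr]
          rw [hu, le_div_iff₀ hEp] at hru
          linarith
        have h2 : m 0 * m 1 / ‖q 0 - q 1‖ = w / ‖q 0 - q 1‖ + w / ‖q 0 - q 1‖ := by
          rw [hw]; ring
        linarith
      have hK : 0 < pot m q + E := lt_of_lt_of_le (by positivity) hKlow
      have hsum : m 0 • q 0 + m 1 • q 1 + m 2 • q 2 = 0 := by
        rw [← Fin.sum_univ_three (fun i => m i • q i)]; exact hcen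
      have hM3 : M = m 0 + m 1 + m 2 := by rw [hMd, Fin.sum_univ_three]
      have hηR : m 2 * (η * R) ≤ (m 0 + m 1) * (R / 2) := by
        rw [hη]
        have h1 : m 2 * ((m 0 + m 1) / (2 * M) * R) = (m 0 + m 1) * (R / 2) * (m 2 / M) := by
          field_simp
        rw [h1]
        have h2 : m 2 / M ≤ 1 := by rw [div_le_one hM]; linarith
        have h3 : 0 ≤ (m 0 + m 1) * (R / 2) := by positivity
        nlinarith
      have hball : ∀ i, ‖q i‖ ≤ R := by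
        have b2 : ‖q 2‖ ≤ R := by
          have : η * R ≤ 1 * R := by
            gcongr
            rw [hη, div_le_one (by positivity)]
            linarith
          linarith
        have b0 : ‖q 0‖ ≤ R := by
          have h3 : (m 0 + m 1) • q 0 = m 1 • (q 0 - q 1) + -(m 2 • q 2) := by
            have : (m 0 + m 1) • q 0 = m 1 • (q 0 - q 1) + -(m 2 • q 2) +
              (m 0 • q 0 + m 1 • q 1 + m 2 • q 2) := by
              simp only [add_smul, smul_sub]; abel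
            rw [this, hsum, add_zero]
          have h4 : (m 0 + m 1) * ‖q 0‖ ≤ m 1 * ‖q 0 - q 1‖ + m 2 * ‖q 2‖ := by
            calc (m 0 + m 1) * ‖q 0‖ = ‖(m 0 + m 1) • q 0‖ := by
                  rw [norm_smul, Real.norm_eq_abs, abs_of_pos (by positivity)]
              _ ≤ ‖m 1 • (q 0 - q 1)‖ + ‖-(m 2 • q 2)‖ := by rw [h3]; exact norm_add_le _ _
              _ = _ := by
                rw [norm_neg, norm_smul, norm_smul, Real.norm_eq_abs, Real.norm_eq_abs,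
                  abs_of_pos hm1, abs_of_pos hm2]
          have h5 : m 1 * ‖q 0 - q 1‖ ≤ (m 0 + m 1) * (R / 2) := by
            have : ‖q 0 - q 1‖ ≤ R / 2 := by linarith
            have h6 : m 1 * ‖q 0 - q 1‖ ≤ m 1 * (R / 2) := by gcongr
            nlinarith
          have h6 : m 2 * ‖q 2‖ ≤ m 2 * (η * R) := by gcongr
          have h7 : (m 0 + m 1) * ‖q 0‖ ≤ (m 0 + m 1) * R := by linarith
          exact le_of_mul_le_mul_left h7 (by positivity)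
        have b1 : ‖q 1‖ ≤ R := by
          have h3 : (m 0 + m 1) • q 1 = -(m 0 • (q 0 - q 1)) + -(m 2 • q 2) := by
            have : (m 0 + m 1) • q 1 = -(m 0 • (q 0 - q 1)) + -(m 2 • q 2) +
              (m 0 • q 0 + m 1 • q 1 + m 2 • q 2) := by
              simp only [add_smul, smul_sub]; abel
            rw [this, hsum, add_zero]
          have h4 : (m 0 + m 1) * ‖q 1‖ ≤ m 0 * ‖q 0 - q 1‖ + m 2 * ‖q 2‖ := by
            calc (m 0 + m 1) * ‖q 1‖ = ‖(m 0 + m 1) • q 1‖ := by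
                  rw [norm_smul, Real.norm_eq_abs, abs_of_pos (by positivity)]
              _ ≤ ‖-(m 0 • (q 0 - q 1))‖ + ‖-(m 2 • q 2)‖ := by rw [h3]; exact norm_add_le _ _
              _ = _ := by
                rw [norm_neg, norm_neg, norm_smul, norm_smul, Real.norm_eq_abs, Real.norm_eq_abs,
                  abs_of_pos hm0, abs_of_pos hm2]
          have h5 : m 0 * ‖q 0 - q 1‖ ≤ (m 0 + m 1) * (R / 2) := by
            have : ‖q 0 - q 1‖ ≤ R / 2 := by linarith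
            have h6 : m 0 * ‖q 0 - q 1‖ ≤ m 0 * (R / 2) := by gcongr
            nlinarith
          have h6 : m 2 * ‖q 2‖ ≤ m 2 * (η * R) := by gcongr
          have h7 : (m 0 + m 1) * ‖q 1‖ ≤ (m 0 + m 1) * R := by linarith
          exact le_of_mul_le_mul_left h7 (by positivity)
        intro i
        fin_cases i
        · exact b0
        · exact b1
        · exact b2
      rw [dens_full (n := 2) (by norm_num) m hm E 2 (BallS m E R) x (by rw [← hq]; exact hx)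
        (by rw [← hq]; exact hK) (fun p hp => ⟨hp, by rw [← hq]; exact hball⟩), ← hq,
        pw_eq (norm_pos_iff.1 hr) hru, pw_zero hyR, mul_one, ENNReal.ofReal_mul (by positivity),
        V0_eq (n := 2) m hm, mul_right_comm, ← ENNReal.ofReal_mul (by positivity)]
      gcongr
      rw [Real.rpow_neg hr.le, Real.rpow_two, Real.rpow_two]
      calc w ^ 2 * (‖q 0 - q 1‖ ^ 2)⁻¹ = (w / ‖q 0 - q 1‖) ^ 2 := by rw [div_pow]; rfl
        _ ≤ _ := by gcongr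
    have hlow := lintegral_mono_ae hpt
    rw [lintegral_const_mul' _ _ ENNReal.ofReal_ne_top,
      hint3 2 0 u (η * R) (by norm_num) (by norm_num) hup (by positivity),
      ← ENNReal.ofReal_mul (by positivity)] at hlow
    refine le_trans (ENNReal.ofReal_le_ofReal ?_) hlow
    have e1 : u ^ (3 - 2 : ℝ) = u := by norm_num
    have e2 : (η * R) ^ (3 - 0 : ℝ) = (η * R) ^ 3 := by
      rw [sub_zero]; exact_mod_cast Real.rpow_natCast (η * R) 3
    rw [e1, e2]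
    have e3 : w ^ 2 * (V0 (n := 2) m).toReal * (κ3 * (cs 2 * u) * (cs 0 * (η * R) ^ 3)) =
        A3 * (R ^ 3 / |E|) := by
      rw [hA3, hu]; ring
    rw [e3]
    have h4 : 1 / A3 ≤ A1 + A2 + 1 / A3 + 2 * w := by
      have : 0 ≤ A1 + A2 + 2 * w := by positivity
      linarith
    have h5 : R ^ 3 / ((A1 + A2 + 1 / A3 + 2 * w) * |E|) ≤ R ^ 3 / (1 / A3 * |E|) := by
      gcongr
    refine h5.trans (le_of_eq ?_)
    field_simp
  · intro ψ φ hφ R hR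
    have h1 := hup2 C0 (M ^ 2 / |E|) R hC0.le (by positivity) hR _ (hom E hE ψ φ hφ R hR)
    refine h1.trans (ENNReal.ofReal_le_ofReal ?_)
    have e1 : (M ^ 2 / |E|) ^ (3 - 1 / 2 : ℝ) = (M ^ 2) ^ (5 / 2 : ℝ) * |E| ^ (-(5 / 2) : ℝ) := by
      rw [Real.div_rpow (by positivity) hEp.le, Real.rpow_neg hEp.le]
      norm_num
      rfl
    have e2 : R ^ (3 - 3 / 2 : ℝ) = R ^ (3 / 2 : ℝ) := by norm_num
    rw [e1, e2]
    have e3 : κ2 * C0 * ((M ^ 2) ^ (5 / 2 : ℝ) * |E| ^ (-(5 / 2) : ℝ)) * R ^ (3 / 2 : ℝ) =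
        A2 * R ^ (3 / 2 : ℝ) * |E| ^ (-(5 / 2) : ℝ) := by
      rw [hA2]; ring
    rw [e3]
    have h3 : 0 ≤ A1 + 1 / A3 + 2 * w := by positivity
    gcongr
    linarith

end Pool.Agent.L5helper85.NB
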